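import Pool.Agent.X312.MR.Gen

/-!
# A gap law for the indecomposable summands of the realizations of the motives `M ⊗ h(X) ^ n`

Let `F` be a number field, `p` a prime, `M` **any** pure motive over `F` and `X` **any** smooth
projective variety over `F`. For `Z` smooth projective over `F` let

`S(Z) = ⊕_i M_p ⊗ H^i(Z, ℚ_p)(⌊i/2⌋)`,

a representation of the Galois group of `F` over `ℚ_p`. Let `V` be **any** indecomposable
representation over `ℚ_p`, `e` the dimension of the division algebra of the endomorphisms of `V`
modulo those which are not bijective, and `d` the least integer `≥ dim V / rank M`. Let `b` be the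
sum of the Betti numbers of `X` and `Mot(Z)` the subspace of the cohomology of `Z` generated by
the motivated cycles over `F`. For all `m ≥ 1`: `V` **is not a direct summand of** `S(X ^ m)` **or
for all** `n ≥ 1` the multiplicity of `V` as a direct summand of `S(X ^ n)` is at least

`(1 / e) (d - 4 (m + 3) b ^ (m + 5) log (n + 1) / n) dim Mot(X ^ n)`.

Nothing is assumed on `M` and `X`. The conjecture Q1 says that `V` does not occur if it is not
irreducible. So if one of the realizations of `M ⊗ h(X ^ m)` is not semisimple then this is true
for all `M ⊗ h(X ^ n)` with large `n`, and some indecomposable representation which is not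
irreducible has a very large multiplicity.

The Galois group commutes with the motivated correspondences over `F`, and the pairing on
motivated cycles is nondegenerate by the Hodge index theorem (André).

The proof. A homomorphism `V → S(Z)` is split if it has an equivariant retraction; as the
endomorphism ring of `V` is local (Fitting), the homomorphisms which are not split form a
subspace. Let `T(Z)` be the quotient. If `V` is a direct summand of `S(P)` for `P = X ^ m` then
`T(P) ≠ 0`; one takes an idempotent motivated correspondence `g` on `P` of minimal rank with `g
T(P) ≠ 0`, and `z ≠ 0` in `g T(P)`. A correspondence `x` with `x z = 0` has a nilpotent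
compression `g x g`, so the trace of `g x` vanishes; therefore `dim T(Z)` is at least the rank of
the trace form `(u, v) ↦ tr (g v u)` on the correspondences between `P` and `Z`, and for `Z = X ^
n` this rank is at least `rank(g) - ε` times `dim Mot(X ^ n)`, by the log-convexity of the
sequence of these dimensions and by the symmetric group. The image of `g` on `S(P)` has `V` as a
direct summand and its dimension is at most `rank M` times the rank of `g`, so the rank of `g` is
at least `d`. Copies of `V` are split off one by one, and each of them uses up at most `e`
dimensions of `T(X ^ n)`.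
-/

set_option autoImplicit false

open CategoryTheory AlgebraicGeometry

universe u v w

namespace Pool.Agent.Results.MP_8f1292_ag.MultiplicityGapLaw

open Pool.Agent.H914 VarClass Obj WeilCohomology
open Pool.Agent.X312.MR (IsIndecomposable IsSummandPow MultAtLeast IsNaturalAction IsBounded
  ResidueAtMost)
open Pool.Agent.X312.FC (CorrData rankBound)
open Pool.Agent.X312.FM (Family IsRingFamily IsNondeg dimOn)
open Pool.Agent.Y133.Half (pw)

variable {k : Type u} [Field k] {𝒱 : VarClass k} {ops : CycleOps 𝒱}
  {W : WeilCohomology.{u, v} ops}

/-- The sum of the Betti numbers of `X`. -/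
noncomputable def totalBetti (W : WeilCohomology.{u, v} ops) (X : 𝒱.Obj) : ℕ :=
  Module.finrank W.K (W.H X)

/-- **The gap law for multiplicities, over any field of coefficients.** In the intended use `C` is the
family of the spaces generated by the motivated cycles over the number field, with coefficients in `ℚ_p`,
`S.M Z = ⊕_i M_p ⊗ H^i(Z, ℚ_p)(⌊i/2⌋)`, `ρ Z` is the action of the Galois group, `b` is the rank of
the motive `M`, and `V` is an indecomposable representation which is not irreducible. Here `dimOn C Z` is
the dimension of `C Z`, and `pw X m` is the product of `m + 1` copies of `X`. -/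
theorem result (C : Family W) (hC : IsRingFamily C) (S : CorrData W)
    (hS : S.IsFunctor C) {G : Type v} (ρ : ∀ Z : 𝒱.Obj, G → S.M Z → S.M Z)
    (hρ : IsNaturalAction C S ρ) (b : ℕ) (hb : IsBounded C S b)
    {V : Type v} [AddCommGroup V] [Module W.K V] [FiniteDimensional W.K V] (τ : G → V → V)
    (hτ : ∀ g, IsLinearMap W.K (τ g)) (hV : IsIndecomposable W.K τ)
    (e : ℕ) (he : ResidueAtMost W.K τ e) (d : ℕ) (hd : (d - 1) * b < Module.finrank W.K V)
    (X : 𝒱.Obj) (hX : ∀ n, IsNondeg C (pw X n)) (m : ℕ) :
    ¬ IsSummandPow W.K τ (ρ (pw X m)) 1 ∨
    ∀ n : ℕ, MultAtLeast W.K τ (ρ (pw X n))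
      (rankBound d (totalBetti W X) (dimOn C (pw X n)) m n / e) :=
  Pool.Agent.X312.MR.gen_law hC hS hρ hτ hV he hb hd X hX m

end Pool.Agent.Results.MP_8f1292_ag.MultiplicityGapLaw
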