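import Pool.Agent.H313.GE.Ss3

/-!
# Semisimplicity of the cohomology of abelian coverings over number fields

Let `Z` be a smooth projective variety of dimension `n` over a number field `F`, `ℓ` a prime, and
`X → Z` the covering `w_i ^ (N_i) = F_i` (`i < m`), `N_i = ℓ ^ (a_i)`, where `F_i` is a form of a
degree divisible by `N_i` and the divisors `D_i` of the `F_i` on `Z` are smooth and ample with normal
crossings, so that `X` is smooth. Let `Γ` be the absolute Galois group of `F`; it may be assumed that `F`
contains the roots of unity of the orders `N_i`, since semisimplicity for a subgroup of finite index is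
equivalent to semisimplicity. Let `E` be the field which is generated by these roots of unity over the
`ℓ`-adic numbers, `O` its ring of integers, `red` the reduction from `O` to the field with `ℓ` elements
(`E` is totally ramified), and `σ`, `τ` the automorphism of `E`, `O` with `ζ ↦ ζ⁻¹` for these roots of
unity (`E = ℚ_2` and the identity, if `N_i = 2` for all `i`); `red (τ x) = red x`.

For a nonempty set `I` of indices `i`, and nontrivial characters `ψ_i` of the groups of the roots of
unity of the orders `N_i`, for `i ∈ I`, let `U_I` be the complement of the `D_i`, `i ∈ I`, in `Z`, and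
`L` the tensor product of the Kummer sheaves of the `ψ_i` for the `F_i`. Then `H ^ j_c (U_I, L) = 0` for
`j ≠ n`, and the `V = H ^ n_c (U_I, L)`, with coefficients in `E`, are representations `ρ` of `Γ`. The
tensor product of `H ^ n (X)` with `E` is the direct sum of these `V`, for all `I` and `ψ`, and of
`H ^ n (Z)`, and in the other degrees the cohomology of `X` is the one of `Z`. By Poincaré duality there
is a perfect pairing of `V` with the space `V'` for the characters `ψ_i⁻¹`, which is the image of `V`
under a `σ`-linear map that commutes with `Γ`: this gives a form `h` on `V` with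
`h (g x) (g y) = κ(g) h x y`, linear in `x` and `σ`-linear in `y`, where `κ` is the `- n`-th power of
the cyclotomic character. At a place `v` of good reduction with residue field `k`, the polynomial
`det (1 - T Φ)` for the geometric Frobenius element `Φ` of `v` on `V` is the product `kummerProduct`, or
its inverse if `n` is odd, and `κ(Φ) = |k| ^ n`.
-/

set_option autoImplicit false
set_option linter.all false
set_option maxHeartbeats 4000000

open Polynomial NumberField Module

namespace Pool.Agent.Results.MP_8f1292_ag.SemisimpleCoverings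

open Pool.Agent.H313.GE.Pts

/-- The form `h` on `V`, linear in the first and `σ`-linear in the second variable, is not degenerate,
and the group acts by similitudes with the factors `κ g`. -/
structure IsPolarized {Γ E V : Type} [Group Γ] [Field E] [AddCommGroup V] [Module E V] (σ : E ≃+* E)
    (ρ : Representation E Γ V) (κ : Γ → E) (h : V →ₗ[E] V →ₛₗ[(σ : E →+* E)] E) : Prop where
  nondegenerate : ∀ y, (∀ x, h x y = 0) → y = 0
  similitude : ∀ g x y, h (ρ g x) (ρ g y) = κ g * h x y

/-- The reduction at a place: the residue field `k`, the reductions of the equations `G i` of `Z`, of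
the forms `F i` and of the characters `ψ i`, the set `I`, and the Frobenius element `Φ`. -/
structure Place (ℓ n : ℕ) (O : Type) {E Γ V : Type} [CommRing O] [Field E] [Algebra O E] [Group Γ]
    [AddCommGroup V] [Module E V] [FiniteDimensional E V] (ρ : Representation E Γ V)
    (κ : Γ → E) : Type 1 where
  k : Type
  [field : Field k]
  [finite : Finite k]
  K : Type
  [fieldK : Field K]
  [numberField : NumberField K]
  φ : 𝓞 K →+* O
  (M s m : ℕ)
  G : Fin s → MvPolynomial (Fin (M + 1)) k
  F : Fin m → MvPolynomial (Fin (M + 1)) k
  ψ : Fin m → MulChar k (𝓞 K)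
  I : Finset (Fin m)
  nonempty : I.Nonempty
  a : Fin m → ℕ
  order : ∀ i ∈ I, ψ i ≠ 1 ∧ ψ i ^ ℓ ^ a i = 1
  D : (𝓞 K)[X]
  polynomial : IsSigned n (kummerProduct G F ψ I) D
  Φ : Γ
  det : D.map ((algebraMap O E).comp φ) = (LinearMap.charpoly (ρ Φ)).reverse
  factor : κ Φ = (Nat.card k : E) ^ n

/-- The condition on the zeta function of `U_I` modulo `ℓ` at the place: the product of the
`1 - T ^ (deg z)` over the closed points `z` of `U_I`, or its inverse if `n` is odd, is modulo `ℓ` a
polynomial `H` of the degree `dim V` which is not divisible by a product of a nonconstant polynomial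
`A` and its reciprocal polynomial `T ^ (deg A) A(1 / T)`. -/
def Place.Condition {ℓ n : ℕ} {O E Γ V : Type} [CommRing O] [Field E] [Algebra O E] [Group Γ]
    [AddCommGroup V] [Module E V] [FiniteDimensional E V] {ρ : Representation E Γ V}
    {κ : Γ → E} (v : Place ℓ n O ρ κ) : Prop :=
  letI := v.field
  ∃ H : (ZMod ℓ)[X], IsSigned n
    (PowerSeries.map (Int.castRingHom (ZMod ℓ)) (openZetaInv v.G v.F v.I)) H ∧
    H.natDegree = finrank E V ∧ ∀ A : (ZMod ℓ)[X], 0 < A.natDegree → ¬ A * A.reverse ∣ H

/-- **Semisimplicity of the cohomology of abelian coverings.** If for each of the summands `V i` (for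
every `I` and all characters) there is one place at which the zeta function of `U_I` modulo `ℓ` satisfies
the condition above, then the direct sum of the `V i` is a semisimple representation of the Galois
group: `H ^ j (X, ℚ_ℓ)` is semisimple for all `j` if the cohomology of `Z` is.

The polynomial `H` is not divisible by any product of `A` and its reciprocal if it is squarefree and all
its irreducible factors are reciprocal polynomials, up to constants. It does not depend on the covering
and the characters, but only on the numbers of the points of `Z` and of the branch divisors `D_i` over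
the extensions of one residue field. For `Z = ℙ ^ 2`, `m = 1` and a smooth plane curve `D` it is
`(1 - T) L(T)` for the numerator `L` of the zeta function of `D`; so `H ^ 2 (X, ℚ_ℓ)` is semisimple for
all coverings `w ^ (ℓ ^ a) = F` of the plane as soon as one Frobenius element acts on the group of the
points of order `ℓ` of the Jacobian of `D` without fixed vectors, with a characteristic polynomial which
is a product of different reciprocal irreducible polynomials (for example irreducible); it suffices
that the image of the Galois group in the automorphisms of this group is the full symplectic group. -/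
theorem result (ℓ : ℕ) (hℓ : ℓ.Prime) (n : ℕ) (O E : Type) [CommRing O] [IsDomain O]
    [IsIntegrallyClosed O] [Field E] [CharZero E] [Algebra O E] [IsFractionRing O E]
    (red : O →+* ZMod ℓ) (τ : O →+* O) (hτ : ∀ x, red (τ x) = red x) (σ : E ≃+* E)
    (hσ : ∀ x : O, σ (algebraMap O E x) = algebraMap O E (τ x)) (Γ : Type) [Group Γ]
    (ι : Type) [Finite ι] (V : ι → Type) [∀ i, AddCommGroup (V i)] [∀ i, Module E (V i)]
    [∀ i, FiniteDimensional E (V i)] (ρ : ∀ i, Representation E Γ (V i)) (κ : ι → Γ → E)
    (h : ∀ i, V i →ₗ[E] V i →ₛₗ[(σ : E →+* E)] E) (hh : ∀ i, IsPolarized σ (ρ i) (κ i) (h i))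
    (v : ∀ i, Place ℓ n O (ρ i) (κ i)) (hv : ∀ i, (v i).Condition)
    (W : Submodule E (∀ i, V i))
    (hW : ∀ g : Γ, ∀ x ∈ W, (fun i => ρ i g (x i)) ∈ W) :
    ∃ W' : Submodule E (∀ i, V i), (∀ g : Γ, ∀ x ∈ W', (fun i => ρ i g (x i)) ∈ W') ∧
      IsCompl W W' := by
  have hF : Fact ℓ.Prime := ⟨hℓ⟩
  have hρ : ∀ i, (ρ i).IsSemisimpleRepresentation := by
    intro i
    letI := (v i).field
    haveI := (v i).finite
    letI := (v i).fieldK
    haveI := (v i).numberField
    obtain ⟨H, hH, hdeg, hns⟩ := hv i
    obtain ⟨hD0, hmod⟩ := kummer_mod (v i).G (v i).F (v i).ψ (v i).I (v i).a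
      (fun j hj => ((v i).order j hj).2) (v i).polynomial hH
    have hr := hmod (ZMod ℓ) (red.comp (v i).φ)
    have hid : H.map (ZMod.castHom (dvd_refl ℓ) (ZMod ℓ)) = H := by
      have : ZMod.castHom (dvd_refl ℓ) (ZMod ℓ) = RingHom.id _ := Subsingleton.elim _ _
      rw [this, Polynomial.map_id]
    rw [hid, ← Polynomial.map_map] at hr
    obtain ⟨j, hj⟩ := (v i).nonempty
    obtain ⟨hj1, hj2⟩ := (v i).order j hj
    obtain ⟨b, hb, hbo⟩ := (Nat.dvd_prime_pow hℓ).1 (orderOf_dvd_of_pow_eq_one hj2)
    have hb0 : b ≠ 0 := by
      rintro rfl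
      rw [pow_zero, orderOf_eq_one_iff] at hbo
      exact hj1 hbo
    have hd : ℓ ∣ Nat.card (v i).k - 1 :=
      (dvd_pow_self ℓ hb0).trans (Pool.Agent.TH639.CK.card_dvd hbo)
    have hk1 : (Nat.card (v i).k : ZMod ℓ) = 1 := by
      have h1 : 1 ≤ Nat.card (v i).k := Nat.card_pos
      have h2 : ((Nat.card (v i).k - 1 : ℕ) : ZMod ℓ) = 0 := (ZMod.natCast_eq_zero_iff _ _).2 hd
      rw [Nat.cast_sub h1, Nat.cast_one, sub_eq_zero] at h2
      exact h2
    refine Pool.Agent.H313.GE.semisimple_of_det red τ (ρ i) hτ hσ (h i) (hh i).nondegenerate (κ i)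
      (hh i).similitude (v i).Φ (κ₀ := (Nat.card (v i).k : O) ^ n) ?_ ?_
      (D := (v i).D.map (v i).φ) ?_ ?_ ?_ ?_
    · rw [map_pow, map_natCast, hk1, one_pow]
    · rw [(v i).factor, map_pow, map_natCast]
    · rw [Polynomial.coeff_map, hD0, map_one]
    · rw [Polynomial.map_map, (v i).det]
    · rw [hr, hdeg]
    · rw [hr]
      exact hns
  have hs := Pool.Agent.H313.GE.piRep_semisimple ρ hρ
  obtain ⟨W', hW'⟩ := hs.exists_isCompl (⟨W, fun g x hx => hW g x hx⟩ : Subrepresentation
    (Pool.Agent.H313.GE.piRep ρ))
  refine ⟨W'.toSubmodule, fun g x hx => W'.apply_mem_toSubmodule g hx, ?_⟩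
  have h1 := congrArg Subrepresentation.toSubmodule hW'.inf_eq_bot
  have h2 := congrArg Subrepresentation.toSubmodule hW'.sup_eq_top
  exact IsCompl.of_eq h1 h2

end Pool.Agent.Results.MP_8f1292_ag.SemisimpleCoverings
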