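import Pool.Agent.X264.TC.Main

/-!
# Semisimplicity of étale cohomology and Tate classes of rational varieties over `ℚ`
-/

set_option autoImplicit false

open Pool.Agent.X264.TC

namespace Pool.Agent.Results.MP_8f1292_ag.TateClassesOfRationalVarieties

universe u

/-- **The semisimplicity conjecture and Tate classes.** Let `E = ℚ_p`. The `p`-adic étale cohomology
of all smooth projective schemes over all number fields is semisimple if and only if, for all `j` and
all geometrically integral rational varieties `X` over `ℚ` of dimension `2 j`, the cup product form is
nondegenerate on the space `H^(2 j)(X̄, ℚ_p(j))^(G_ℚ)` of the Tate classes in the middle degree. -/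
theorem result {E : Type} [Field E] [CharZero E] (S : Sys.{u} E) (hS : S.IsEtale) :
    S.AllSemisimple ↔
      ∀ (X : S.VarQ) (j : ℕ), S.rat X → S.dim X = 2 * j → S.TateNondegenerate X j :=
  Sys.main hS

end Pool.Agent.Results.MP_8f1292_ag.TateClassesOfRationalVarieties
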