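import Pool.Agent.X264.TC.Fam

/-!
# Semisimplicity of the cohomology of the powers of one variety, and Tate classes
-/

set_option autoImplicit false

open Pool.Agent.X264.TC

namespace Pool.Agent.Results.MP_8f1292_ag.TateClassesOnPowers

universe u

/-- **Semisimplicity and Tate classes on powers.** Let `K` be a number field with a real place,
`E = ℚ_p`, and `𝒱` a class of smooth projective equidimensional `K`-schemes closed under the powers
`X^r` and under `X ⊗ F`, `F` an abelian extension of `K` (for example the `X^r ⊗ F` for one `X`). The
cohomology of all `X ∈ 𝒱` is semisimple if and only if for all `X ∈ 𝒱` and all `i + j = dim X` the cup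
product is nondegenerate on the Tate classes. -/
theorem result {E : Type} [Field E] [CharZero E] (S : Fam.{u} E) (hS : S.IsEtale) :
    (∀ (X : S.Var) (i : ℕ), (S.coh X i).IsSemisimple) ↔
      ∀ (X : S.Var) (i j : ℕ), i + j = S.dim X → S.TateNondegenerate X i j :=
  Fam.main hS

end Pool.Agent.Results.MP_8f1292_ag.TateClassesOnPowers
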